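import Mathlib
import Pool.Agent.V11308.SixThreeDiv

/-!
MP_cbedb1_nt, Q1.  With `a_k = C(6k,3k) C(3k,k)` and `S_n = ∑_{j ≤ n} a_j a_{n-j}`, the integer
`8 (2n-1) C(3n,n)` divides `S_n` for every positive integer `n`.
-/

namespace Pool.Agent.Results.MP_cbedb1_nt.Divisibility

open Finset

/-- `a_k = C(6k,3k) C(3k,k)` -/
def a (k : ℕ) : ℕ := (6 * k).choose (3 * k) * (3 * k).choose k

/-- the self-convolution `S_n = ∑_{j=0}^n a_j a_{n-j}` -/
def S (n : ℕ) : ℕ := ∑ j ∈ range (n + 1), a j * a (n - j)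

/-- `8 (2n-1) C(3n,n) ∣ S_n` for every positive integer `n`, in `ℤ`. -/
theorem result : ∀ n : ℕ, 0 < n →
    (8 * (2 * (n : ℤ) - 1) * ((3 * n).choose n : ℤ)) ∣ (S n : ℤ) := by
  intro n hn
  have h := V11308.SixThree.eight_mul_X_dvd n hn
  have hX : ((8 * V11308.SixThree.X n : ℕ) : ℤ) =
      8 * (2 * (n : ℤ) - 1) * ((3 * n).choose n : ℤ) := by
    unfold V11308.SixThree.X
    rw [Nat.cast_mul, Nat.cast_mul, Nat.cast_sub (by omega)]
    push_cast
    ring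
  have hS : (S n : ℤ) = ((V11308.SixThree.S n : ℕ) : ℤ) := rfl
  rw [← hX, hS]
  exact_mod_cast h

end Pool.Agent.Results.MP_cbedb1_nt.Divisibility
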